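import Pool.Agent.H29.DPX.Main

/-!
# Deligne's period conjecture for twists: reduction to few ramified primes

For fields `F` of squarefree exponent `n`, and a class of abelian varieties closed under the twists
`A ⊗ ℤ[mu_q]` (`q` a prime dividing `n`), the statements (i) and (ii) of the question follow, when
the other values concerned do not vanish, from the case of the fields whose subfields of each prime
degree `q` are ramified at `q - 2` primes at most: the fields of prime conductor for `n = 3` and
`n = 6`.
-/

namespace Pool.Agent.Results.MP_21281f_nt.FewRamifiedPrimes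

open Polynomial Complex Pool.DPC Pool.DPX

theorem result (n : ℕ) (hn : Squarefree n) (U : Set ℂ) (hU : Region U) (K : Set Datum)
    (hK : TwistClosed n U K) (k : IntermediateField ℚ ℂ)
    (H : ∀ A ∈ K, ∀ (f : ℕ) (psi : DirichletCharacter ℂ f),
      FieldData n f (Subgroup.zpowers psi) →
      (∀ q : ℕ, q.Prime → q ∣ n → (psi ^ (n / q)).conductor.primeFactors.card ≤ q - 2) →
      Equivariant k (normValue A.d A.Om (A.L f)) psi) :
    ∀ A ∈ K, ∀ (f : ℕ) (psi : DirichletCharacter ℂ f), Squarefree f → psi.Even → psi ^ n = 1 →
      (∀ psi' : DirichletCharacter ℂ f, Below n psi psi' → A.L f psi' 1 ≠ 0) →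
      Equivariant k (normValue A.d A.Om (A.L f)) psi :=
  dpx_all hn hU hK k H

end Pool.Agent.Results.MP_21281f_nt.FewRamifiedPrimes
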