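import Pool.Agent.H29.DPU.Main

/-!
# Deligne's period conjecture for twists: the single values and finitely many traces

Let `V(psi) = tau*(psi^-1)^d L(psi, 1) / Omega`. Let `n` be prime to `d`, or let the greatest
common divisor be 2 and 4 not divide `n`. Let `S` be any set of primes with infinitely many
elements in every reduced residue class. For a totally real tame abelian field `F` of exponent
dividing `n` there is a finite list of such fields `F'`, independent of the abelian variety, which
are composita of a cyclic field and a field of prime degree (or cyclic) and are ramified at some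
prime of `S`, such that the statements (i) and (ii) of the question for `F` and all its characters
follow from the rationality of the numbers `sum over the characters psi of F' of V(psi)`.
-/

namespace Pool.Agent.Results.MP_21281f_nt.TraceCriterion

open Polynomial Complex Pool.DPC

theorem result (S : Set ℕ)
    (hS : ∀ M a : ℕ, 0 < M → a.Coprime M → ∀ B : ℕ, ∃ p ∈ S, B < p ∧ p.Prime ∧ p ≡ a [MOD M])
    (n d : ℕ) (hn : 1 < n) (hnd : n.gcd d = 1 ∨ n.gcd d = 2 ∧ ¬ 4 ∣ n) (f₀ : ℕ) :
    ∃ N : ℕ, ∀ (Om : ℝ) (P : ℕ → ℚ[X]) (U : Set ℂ)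
      (L : (f : ℕ) → DirichletCharacter ℂ f → ℂ → ℂ), Weil d P → Region U →
      (∀ (f : ℕ) (psi : DirichletCharacter ℂ f), Squarefree f → psi.Even → psi ^ n = 1 →
        IsTwistedL P U psi (L f psi)) →
      ∀ k : IntermediateField ℚ ℂ,
      ((∀ (f : ℕ) (Y : Subgroup (DirichletCharacter ℂ f)), f ≤ N → FieldData n f Y →
        (∃ a b, Y = Subgroup.closure {a, b} ∧ ∃ q : ℕ, q.Prime ∧ b ^ q = 1) →
        (∃ l ∈ S, l.Prime ∧ l ∣ f) →
        ∑ᶠ psi ∈ (Y : Set (DirichletCharacter ℂ f)), normValue d Om (L f) psi ∈ k) →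
      ∀ Y : Subgroup (DirichletCharacter ℂ f₀), FieldData n f₀ Y → ∀ psi ∈ Y,
        Equivariant k (normValue d Om (L f₀)) psi) ∧
      ∀ (f : ℕ) (Y : Subgroup (DirichletCharacter ℂ f)), FieldData n f Y →
        (∀ psi ∈ Y, Equivariant k (normValue d Om (L f)) psi) →
        ∑ᶠ psi ∈ (Y : Set (DirichletCharacter ℂ f)), normValue d Om (L f) psi ∈ k := by
  obtain ⟨N, hN⟩ := dpu_all S hS n d hn hnd f₀
  refine ⟨N, fun Om P U L hP hU hL k => ⟨hN Om P U L hP hU hL k, fun f Y hY h => ?_⟩⟩
  exact t_BAK29 t_gal k n f _ Y (by omega) hY.sqf.ne_zero hY.exp h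

end Pool.Agent.Results.MP_21281f_nt.TraceCriterion
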