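import Pool.Agent.H29.DPW.Main

/-!
# Deligne's period conjecture for twists: all exponents

The criterion of `TraceCriterion` for an arbitrary exponent `n`, for local factors `P_l` whose
first coefficients are unbounded in the reduced residue classes which are 1 modulo the powers of
the primes of a finite set `Sg` (for an abelian variety: the primes where it is not semistable), and
fields unramified at `Sg`: the statements (i) and (ii) of the question for such a field `F` follow
from the rationality of the traces for finitely many such fields.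
-/

namespace Pool.Agent.Results.MP_21281f_nt.TraceCriterionAllExponents

open Polynomial Complex Pool.DPC

theorem result (n d : ℕ) (hn : 1 < n) (P : ℕ → ℚ[X]) (hP : Weil d P) (Sg S : Set ℕ)
    (hSg : Sg.Finite)
    (hS : ∀ (T : ℚ) (M a : ℕ), 0 < M → a.Coprime M →
      (∀ l ∈ Sg, l.Prime → ∀ j : ℕ, l ^ j ∣ M → a ≡ 1 [MOD l ^ j]) →
      ∃ p ∈ S, p.Prime ∧ p ≡ a [MOD M] ∧ T < |(P p).coeff 1|)
    (f₀ : ℕ) (hf₀ : ∀ l ∈ Sg, l.Prime → ¬ l ∣ f₀) :
    ∃ N : ℕ, ∀ (Om : ℝ) (U : Set ℂ) (L : (f : ℕ) → DirichletCharacter ℂ f → ℂ → ℂ), Region U →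
      (∀ (f : ℕ) (psi : DirichletCharacter ℂ f), Squarefree f → psi.Even → psi ^ n = 1 →
        IsTwistedL P U psi (L f psi)) →
      ∀ k : IntermediateField ℚ ℂ,
      (∀ (f : ℕ) (Y : Subgroup (DirichletCharacter ℂ f)), f ≤ N →
        (∀ l ∈ Sg, l.Prime → ¬ l ∣ f) → FieldData n f Y →
        (∃ a b, Y = Subgroup.closure {a, b} ∧ ∃ q : ℕ, q.Prime ∧ b ^ q = 1) →
        (∃ l ∈ S, l.Prime ∧ l ∣ f) →
        ∑ᶠ psi ∈ (Y : Set (DirichletCharacter ℂ f)), normValue d Om (L f) psi ∈ k) →
      ∀ Y : Subgroup (DirichletCharacter ℂ f₀), FieldData n f₀ Y → ∀ psi ∈ Y,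
        Equivariant k (normValue d Om (L f₀)) psi :=
  dpw_all n d hn P hP Sg S hSg hS f₀ hf₀

end Pool.Agent.Results.MP_21281f_nt.TraceCriterionAllExponents
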