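import Pool.Agent.H29.DTP.Mn

/-!
# Deligne's period conjecture for twists: one field, the traces of the products

For one abelian field `F` with squarefree conductor `f` and character group `Y`, the statements
(i) and (ii) of the question for `A` and all characters of `F` are equivalent to the rationality of
the traces over `Y` of the values of `A × C^j`, `j < |Y|`. Here `C` is any abelian variety with
nonvanishing rational value which is isogenous to its twists by `Y`, such as `Res_(F/ℚ) E_F` for an
elliptic curve `E` over `ℚ` with `L(E/F, 1) ≠ 0`.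
-/

namespace Pool.Agent.Results.MP_21281f_nt.TracesOfProducts

open Polynomial Complex Pool.DPC Pool.DPX Pool.DTP

theorem result (f : ℕ) (hf : Squarefree f) (Y : Subgroup (DirichletCharacter ℂ f))
    (U : Set ℂ) (hU : Region U) (k : IntermediateField ℚ ℂ)
    (C : Datum) (hC : IsInduced Y C) (hCU : Continues U Y C)
    (hk : normValue C.d C.Om (C.L f) (1 : DirichletCharacter ℂ f) ∈ k)
    (h0 : normValue C.d C.Om (C.L f) (1 : DirichletCharacter ℂ f) ≠ 0)
    (A : Datum) (hAU : Continues U Y A)
    (B : ℕ → Datum) (hB : ∀ j < Nat.card Y, IsProduct A C j (B j))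
    (hBU : ∀ j < Nat.card Y, Continues U Y (B j)) :
    (∀ psi ∈ Y, Equivariant k (normValue A.d A.Om (A.L f)) psi) ↔
      ∀ j < Nat.card Y, ∑ᶠ psi ∈ (Y : Set (DirichletCharacter ℂ f)),
        normValue (B j).d (B j).Om ((B j).L f) psi ∈ k :=
  main hf hU hC hCU hk h0 A hAU B hB hBU

end Pool.Agent.Results.MP_21281f_nt.TracesOfProducts
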